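import Pool.Agent.N798.P13

set_option autoImplicit false

/-!
# MP_91b7ff_nt: the moments `∫ |ζ(1/2 + it)|^β dt` and sums of the coefficients of `ζ^(β/2)`

Let `κ = β/2 > 0` be real, let `d_κ(n)` be the coefficients of `ζ(s)^κ` (multiplicative,
`d_κ(p^j) = C(κ + j - 1, j)`) and let `L_κ(v) = ∑_j C(j - κ - 1, j) v^j / j!` be the Laguerre function, whose Laplace
transform is `(1 - 1/s)^κ / s`. Put `R_κ(x) = ∑_{n ≤ x} d_κ(n) L_κ(log (x/n))` and
`V_β(h) = ∫_0^∞ |R_κ(x e^h) - R_κ(x)|² dx / x²`. The weight removes the branch point of `ζ^κ` at `s = 1`, and it has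
modulus one on the critical line.

Main theorem. Let `Mult β` be the condition that `κ m(ρ)` is an integer for every zero `ρ` of `ζ` with `Re ρ > 1/2`,
of multiplicity `m(ρ)`. It is void if `β` is an even integer; it says that these multiplicities are even if `β` is an
odd integer; and it is the Riemann hypothesis if `β/2` is irrational.

* If `Mult β` holds, then `V_β(h) = (1/2π) ∫ |(e^{h(1/2+it)} - 1)/(1/2+it)|² |ζ(1/2+it)|^β dt` for all `h`; and if it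
  fails, then `V_β(h) = ∞` for all `h > 0`.
* `V_β(h) ~ c h (log (1/h))^A` as `h → 0+` if and only if `Mult β` holds and
  `(1/T) ∫_0^T |ζ(1/2+it)|^β dt ~ c (log T)^A` as `T → ∞` (`A, c ≥ 0` real).
* For `β < 10` the integral `∫_0^∞ |R_κ(x)|² dx / x²` is finite if and only if `Mult β` holds.

In particular Q1 and the evenness of the multiplicities to the right of the critical line hold together if and only if
for every `k ≥ 1` there is `c_k > 0` with `V_k(h) ~ c_k h (log (1/h))^(k²/4)`.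
-/

namespace Pool.Agent.Results.MP_91b7ff_nt.FractionalVariance

open Complex MeasureTheory Filter Topology Set
open scoped ENNReal Real

noncomputable section

/-- The mean value `(1/T) ∫_0^T |ζ(1/2 + it)|^β dt`. -/
def M (β T : ℝ) : ℝ := 1 / T * ∫ t in (0:ℝ)..T, ‖riemannZeta (1 / 2 + t * I)‖ ^ β

/-- The binomial coefficient `C(κ + j - 1, j) = κ (κ + 1) ⋯ (κ + j - 1) / j!`. -/
def bc (κ : ℝ) (j : ℕ) : ℝ := ∏ i ∈ Finset.range j, (κ + i) / (i + 1)

/-- The coefficients `d_κ(n)` of `ζ^κ`: `d_κ(p_1^{j_1} ⋯ p_r^{j_r}) = ∏ C(κ + j_i - 1, j_i)`. -/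
def d (κ : ℝ) (n : ℕ) : ℝ := if n = 0 then 0 else n.factorization.prod fun _ j => bc κ j

/-- The Laguerre function `L_κ(v) = ∑_j C(j - κ - 1, j) v^j / j!`. -/
def Lag (κ v : ℝ) : ℝ := ∑' j : ℕ, bc (-κ) j * v ^ j / j.factorial

/-- The weighted sums `R_κ(x) = ∑_{n ≤ x} d_κ(n) L_κ(log (x/n))`. -/
def R (κ x : ℝ) : ℝ := ∑ n ∈ Finset.Icc 1 ⌊x⌋₊, d κ n * Lag κ (Real.log (x / n))

/-- `V_β(h) = ∫_0^∞ |R_κ(x e^h) - R_κ(x)|² dx / x²` with `κ = β/2`, a number in `[0, ∞]`. -/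
def V (β h : ℝ) : ℝ≥0∞ :=
  ∫⁻ x in Ioi (0:ℝ), ENNReal.ofReal ((R (β / 2) (x * Real.exp h) - R (β / 2) x) ^ 2 / x ^ 2)

/-- `W_β = ∫_0^∞ |R_κ(x)|² dx / x²` with `κ = β/2`, a number in `[0, ∞]`. -/
def W (β : ℝ) : ℝ≥0∞ := ∫⁻ x in Ioi (0:ℝ), ENNReal.ofReal ((R (β / 2) x) ^ 2 / x ^ 2)

/-- For every zero `ρ` of `ζ` with `Re ρ > 1/2`, of multiplicity `m`, the number `β m / 2` is an integer. -/
def Mult (β : ℝ) : Prop := ∀ ρ : ℂ, 1 / 2 < ρ.re → riemannZeta ρ = 0 →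
  ∃ k : ℕ, β / 2 * (analyticOrderNatAt riemannZeta ρ : ℝ) = k

/-- All zeros `ρ` of `ζ` with `Re ρ > 1/2` (if any) have even multiplicity. -/
def EvenMult : Prop := ∀ ρ : ℂ, 1 / 2 < ρ.re → riemannZeta ρ = 0 → Even (analyticOrderNatAt riemannZeta ρ)

/-- `M_β(T) ~ c (log T)^A` as `T → ∞`. -/
def MomentAsymp (β A c : ℝ) : Prop := Tendsto (fun T : ℝ => M β T / Real.log T ^ A) atTop (𝓝 c)

/-- `V_β(h) ~ c h (log (1/h))^A` as `h → 0+`. -/
def VarAsymp (β A c : ℝ) : Prop :=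
  Tendsto (fun h : ℝ => V β h / ENNReal.ofReal (h * Real.log (1 / h) ^ A)) (𝓝[>] 0) (𝓝 (ENNReal.ofReal c))

lemma V_eq (β h : ℝ) : V β h = Pool.Agent.N798.P.Vk (β / 2) h := rfl
lemma W_eq (β : ℝ) : W β = Pool.Agent.N798.P.Wk (β / 2) := rfl
lemma Mult_iff (β : ℝ) : Mult β ↔ Pool.Agent.N798.P.Zc (β / 2) := Iff.rfl

lemma core {β A c : ℝ} (hβ : 0 < β) (hA : 0 ≤ A) (hc : 0 ≤ c) : VarAsymp β A c ↔ Mult β ∧ MomentAsymp β A c := by
  have h := Pool.Agent.N798.P.moment_iff_real (Pool.Agent.N798.P.svLogR A hA) (κ := β / 2) (by linarith) hc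
  have e0 : 2 * (β / 2) = β := by ring
  rw [e0] at h
  have e : (fun T : ℝ => M β T / Real.log T ^ A) =ᶠ[atTop]
      (fun T : ℝ => (∫ t : ℝ in Ioc 0 T, ‖riemannZeta (1 / 2 + t * I)‖ ^ β) / (T * Real.log T ^ A)) := by
    filter_upwards [eventually_gt_atTop (0:ℝ)] with T hT
    unfold M
    rw [intervalIntegral.integral_of_le hT.le]
    rw [one_div, inv_mul_eq_div, div_div]
  unfold MomentAsymp
  rw [tendsto_congr' e]
  exact h

lemma mult_of_even {k : ℕ} (h : EvenMult) : Mult k := by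
  by_cases hk : Even k
  · exact Pool.Agent.N798.P.Zc_even hk
  · exact (Pool.Agent.N798.P.Zc_odd hk).2 h

/-- **The moments of zeta with real exponents and the coefficients of the powers of zeta.** -/
theorem result :
    (∀ β : ℝ, 0 < β →
      -- the formula, and the dichotomy
      (Mult β → ∀ h : ℝ, V β h = ENNReal.ofReal (1 / (2 * π)) * ∫⁻ t : ℝ, ENNReal.ofReal
        (‖(cexp ((1 / 2 + t * I) * h) - 1) / (1 / 2 + t * I)‖ ^ 2 * ‖riemannZeta (1 / 2 + t * I)‖ ^ β)) ∧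
      (¬ Mult β → ∀ h : ℝ, 0 < h → V β h = ⊤) ∧
      -- the equivalence of the asymptotic formulas
      (∀ A c : ℝ, 0 ≤ A → 0 ≤ c → (VarAsymp β A c ↔ Mult β ∧ MomentAsymp β A c)) ∧
      -- the mean square of the sums themselves
      (β < 10 → (W β ≠ ⊤ ↔ Mult β)) ∧
      -- irrational exponents
      (Irrational (β / 2) → (Mult β ↔ RiemannHypothesis))) ∧
    -- integer exponents
    (∀ k : ℕ, (Even k → Mult k) ∧ (¬ Even k → (Mult k ↔ EvenMult))) ∧
    -- the question Q1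
    (((∀ k : ℕ, 1 ≤ k → ∃ c : ℝ, 0 < c ∧ MomentAsymp k ((k : ℝ) ^ 2 / 4) c) ∧ EvenMult) ↔
      ∀ k : ℕ, 1 ≤ k → ∃ c : ℝ, 0 < c ∧ VarAsymp k ((k : ℝ) ^ 2 / 4) c) := by
  refine ⟨fun β hβ => ⟨fun hM h => ?_, fun hM h hh => ?_, fun A c hA hc => core hβ hA hc, fun h10 => ?_, fun hi => ?_⟩,
    fun k => ⟨fun hk => Pool.Agent.N798.P.Zc_even hk, fun hk => Pool.Agent.N798.P.Zc_odd hk⟩, ?_⟩
  · rw [V_eq, Pool.Agent.N798.P.Vk_formula (by linarith) hM, Pool.Agent.N798.V.VV]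
    congr 1
    apply lintegral_congr
    intro t
    have e1 : (((1 / 2 : ℝ) : ℂ) + t * I) = 1 / 2 + t * I := by push_cast; ring
    rw [e1, ← ofReal_norm, ← ENNReal.ofReal_pow (norm_nonneg _), norm_mul, mul_pow, Pool.Agent.N798.P.Ph_norm]
    congr 1
    have e2 : ‖(1 / 2 + t * I : ℂ)‖ ^ 2 = 1 / 4 + t ^ 2 := by
      rw [← Complex.normSq_eq_norm_sq, Complex.normSq_apply]
      simp
      ring
    rw [norm_div, div_pow, e2, show 2 * (β / 2) = β by ring]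
    unfold Pool.Agent.N798.V.g₀
    rw [div_eq_mul_inv]
    ring
  · by_contra hV
    exact hM (Pool.Agent.N798.P.Zc_of_Vk (by linarith) hh hV)
  · exact Pool.Agent.N798.P.Wk_iff (by linarith) (by linarith)
  · exact Pool.Agent.N798.P.Zc_irr hi
  · constructor
    · rintro ⟨h, hE⟩ k hk
      obtain ⟨c, hc, h1⟩ := h k hk
      have hk0 : (0:ℝ) < k := by exact_mod_cast hk
      exact ⟨c, hc, (core hk0 (by positivity) hc.le).2 ⟨mult_of_even hE, h1⟩⟩
    · intro h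
      refine ⟨fun k hk => ?_, ?_⟩
      · obtain ⟨c, hc, h1⟩ := h k hk
        have hk0 : (0:ℝ) < k := by exact_mod_cast hk
        exact ⟨c, hc, ((core hk0 (by positivity) hc.le).1 h1).2⟩
      · obtain ⟨c, hc, h1⟩ := h 1 le_rfl
        have h2 := ((core (β := ((1:ℕ) : ℝ)) (by norm_num) (by positivity) hc.le).1 h1).1
        exact (Pool.Agent.N798.P.Zc_odd (k := 1) (by decide)).1 h2

end

end Pool.Agent.Results.MP_91b7ff_nt.FractionalVariance
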