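import Mathlib
import Pool.Agent.N30.OD.Cy

/-!
# The moments of zeta over half planes

Let `z(t) = ζ(1/2 + it)` and let `k ≥ 1` be an integer, odd or even.  `N` lines through `0` at equal angles cut the plane
into `2N` sectors; for `u ≠ 0` let `Side N u` be the set of heights at which `z` is in one of the `N` sectors
`Re (z/u)^N > 0` (a half plane for `N = 1`).  Let `g = exp (-((t - T)/Δ)²)`; the integrals with the weight `g` are over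
`T/2 < t < 3T/2`.  Unconditional results, for `N ≡ k (mod 2)`:

* the twisted moments `∫ |z|^k (z/|z|)^m g dt` for `m ≡ k (mod 2)`, `m ≥ k - 2`: for `m = k - 2` the value is
  `√π Δ (log T)^{k-1} (1/(k-1)! + O(1/log T))`, for `m = k` it is `√π Δ + O(T^{-2})`, for `m > k` it is
  `O(T^{-2}/m)`;
* an exact formula for the difference of the moments over the two sides: up to `O(T^{-2})` (uniformly in the number of
  lines and their direction) `∫ |z|^k sign Re (z/u)^N g dt` is a combination of the twisted moments with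
  `m = N(2j+1) ≤ k`;
* on `[0, T]`, for `k ≤ 3`: the `k`-th moment over `Side N u` is `M_k(T)/2 + O(T^{1-δ})` for `N > k`,
  `M_k(T)/2 + (2/π) Re (|u|/u)^k T + O(T^{1-δ})` for `N = k`, and for the third moment over the half plane
  `Re (z/u) > 0` it is `M_3(T)/2 + (1/π) (Re u/|u|) T (log T)² + O(T log T)`; all are `(1/2 + O((log T)^{-1/4})) M_k(T)`;
* for all `k` and `N ≥ max (1, k - 2)`: one half of the `k`-th moment on `[T, 2T]` comes from `Side N u` (up to a factor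
  `1 + ε` and changes of the end points by `ε T`), and the asymptotic formula `M_k(T) ~ a T (log T)^{k²/4}` is
  equivalent to the asymptotic formula `(a/2) T (log T)^{k²/4}` for the moment over `Side N u`.
-/

set_option autoImplicit false

open Filter Topology Set MeasureTheory

namespace Pool.Agent.Results.MP_91b7ff_nt.SidesOfLines

/-- The value `ζ(1/2 + it)`. -/
noncomputable def z (t : ℝ) : ℂ := riemannZeta (1 / 2 + t * Complex.I)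

/-- The Gaussian weight. -/
noncomputable def g (T Δ t : ℝ) : ℝ := Real.exp (-((t - T) / Δ) ^ 2)

/-- The `k`-th moment. -/
noncomputable def M (k : ℕ) (T : ℝ) : ℝ := ∫ t in (0 : ℝ)..T, ‖z t‖ ^ k

/-- The heights at which `z` is on one side of the `N` lines: `Re (z/u)^N > 0`. -/
def Side (N : ℕ) (u : ℂ) : Set ℝ := {t | 0 < ((z t / u) ^ N).re}

/-- The `k`-th moment over one side. -/
noncomputable def MS (k N : ℕ) (u : ℂ) (T : ℝ) : ℝ := ∫ t in Ioc 0 T ∩ Side N u, ‖z t‖ ^ k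

/-- The `k`-th moment twisted by the `m`-th power of the direction of zeta. -/
noncomputable def J (k m : ℕ) (T Δ : ℝ) : ℂ :=
  ∫ t in (T / 2)..(3 * T / 2), ((‖z t‖ ^ k * g T Δ t : ℝ) : ℂ) * (z t / (‖z t‖ : ℂ)) ^ m

/-- The difference of the `k`-th moments over the two sides. -/
noncomputable def S (k N : ℕ) (u : ℂ) (T Δ : ℝ) : ℝ :=
  ∫ t in (T / 2)..(3 * T / 2), ‖z t‖ ^ k * Real.sign ((z t / u) ^ N).re * g T Δ t

open Pool.Agent.W188.QS Pool.Agent.N30.MZ Pool.Agent.N30.OD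

lemma M_eq (k : ℕ) (T : ℝ) : M k T = ∫ t in (0 : ℝ)..T, Zp k t := rfl

lemma Side_eq (N : ℕ) (u : ℂ) : Side N u = Sd N u := rfl

lemma MS_eq (k N : ℕ) (u : ℂ) (T : ℝ) : MS k N u T = ∫ t in Ioc 0 T ∩ Sd N u, Zp k t := rfl

lemma J_eq (k m : ℕ) (T Δ : ℝ) : J k m T Δ = CC k m T Δ := rfl

lemma S_eq (k N : ℕ) (u : ℂ) (T Δ : ℝ) : S k N u T Δ = SG k N u T Δ := rfl

lemma re_eq {u : ℂ} : ((‖u‖ : ℂ) / u).re = u.re / ‖u‖ := by
  rcases eq_or_ne u 0 with h | h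
  · simp [h]
  · have h0 : ‖u‖ ≠ 0 := norm_ne_zero_iff.2 h
    rw [div_eq_mul_inv, Complex.re_ofReal_mul, Complex.inv_re, Complex.normSq_eq_norm_sq]
    field_simp

/-- **The moments of zeta over half planes and over one side of `N` lines.** -/
theorem result :
    -- the twisted moments
    (∀ k : ℕ, 1 ≤ k → ∃ K δ B T₀ : ℝ, 0 < δ ∧ 0 < B ∧ ∀ T Δ : ℝ, T₀ ≤ T → T ^ (1 - δ) ≤ Δ → B * Δ * √(Real.log T) ≤ T →
      ‖J k k T Δ - ((√Real.pi * Δ : ℝ) : ℂ)‖ ≤ K * T ^ (-(2 : ℝ)) ∧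
      (2 ≤ k → ‖J k (k - 2) T Δ - ((√Real.pi * Δ * (Real.log T ^ (k - 1) / ((k - 1).factorial : ℝ)) : ℝ) : ℂ)‖ ≤
        K * (Δ * Real.log T ^ (k - 2)))) ∧
    (∀ k : ℕ, 1 ≤ k → ∃ K B T₀ : ℝ, 0 < B ∧ ∀ T Δ : ℝ, T₀ ≤ T → 1 ≤ Δ → B * Δ * √(Real.log T) ≤ T →
      ∀ m : ℕ, k + 1 ≤ m → m % 2 = k % 2 → ‖J k m T Δ‖ ≤ K * T ^ (-(2 : ℝ)) / (m + 1)) ∧
    -- the exact formula
    (∀ k : ℕ, 1 ≤ k → ∃ K B T₀ : ℝ, 0 < B ∧ ∀ (N : ℕ) (u : ℂ) (T Δ : ℝ), 1 ≤ N → N % 2 = k % 2 → u ≠ 0 → T₀ ≤ T → 1 ≤ Δ →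
      B * Δ * √(Real.log T) ≤ T →
      |S k N u T Δ - 4 / Real.pi * ∑ j ∈ (Finset.range k).filter (fun j => N * (2 * j + 1) ≤ k),
        (-1) ^ j / (2 * j + 1) * (((‖u‖ : ℂ) / u) ^ (N * (2 * j + 1)) * J k (N * (2 * j + 1)) T Δ).re| ≤
        K * T ^ (-(2 : ℝ))) ∧
    -- the first three moments on `[0, T]`
    (∀ k N : ℕ, 1 ≤ k → k ≤ 3 → k ≤ N → N % 2 = k % 2 → ∃ δ K T₀ : ℝ, 0 < δ ∧ ∀ (u : ℂ) (T : ℝ), u ≠ 0 → T₀ ≤ T →
      |MS k N u T - 1 / 2 * M k T - (if N = k then 2 / Real.pi * (((‖u‖ : ℂ) / u) ^ k).re * T else 0)| ≤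
        K * T ^ (1 - δ)) ∧
    (∃ K T₀ : ℝ, ∀ (u : ℂ) (T : ℝ), u ≠ 0 → T₀ ≤ T →
      |MS 3 1 u T - 1 / 2 * M 3 T - 1 / Real.pi * (u.re / ‖u‖) * (T * Real.log T ^ 2)| ≤ K * (T * Real.log T)) ∧
    (∀ k N : ℕ, 1 ≤ k → k ≤ 3 → 1 ≤ N → N % 2 = k % 2 → ∃ K T₀ : ℝ, ∀ (u : ℂ) (T : ℝ), u ≠ 0 → T₀ ≤ T →
      |MS k N u T - 1 / 2 * M k T| ≤ K * Real.log T ^ (-(1 / 4) : ℝ) * M k T) ∧
    -- all moments
    (∀ (k N : ℕ) (u : ℂ), 1 ≤ k → 1 ≤ N → N % 2 = k % 2 → k ≤ N + 2 → u ≠ 0 →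
      (∀ ε : ℝ, 0 < ε → ε ≤ 1 / 2 → ∀ᶠ T : ℝ in atTop,
        (∫ t in Ioc T (2 * T) ∩ Side N u, ‖z t‖ ^ k) ≤ (1 + ε) * (1 / 2 * ∫ t in ((1 - ε) * T)..((2 + ε) * T), ‖z t‖ ^ k) ∧
        1 / 2 * (∫ t in T..(2 * T), ‖z t‖ ^ k) ≤ (1 + ε) * ∫ t in Ioc ((1 - ε) * T) ((2 + ε) * T) ∩ Side N u, ‖z t‖ ^ k) ∧
      ∀ a : ℝ, Tendsto (fun T => M k T / (T * Real.log T ^ ((k : ℝ) ^ 2 / 4))) atTop (𝓝 a) ↔
        Tendsto (fun T => MS k N u T / (T * Real.log T ^ ((k : ℝ) ^ 2 / 4))) atTop (𝓝 (1 / 2 * a))) := by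
  refine ⟨fun k hk => ?_, fun k hk => ?_, fun k hk => ?_, fun k N hk hk3 hkN hNk => ?_, ?_, fun k N hk hk3 hN hNk => ?_,
    fun k N u hk hN hNk hkN hu => ⟨fun ε h0 h1 => ?_, fun a => ?_⟩⟩
  · obtain ⟨K, δ, B, T₀, -, hδ, -, hB, -, h⟩ := CC_low k hk
    exact ⟨K, δ, B, T₀, hδ, by linarith, fun T Δ h1 h2 h3 => h T Δ h1 h2 h3⟩
  · obtain ⟨K, B, T₀, -, hB, -, h⟩ := CC_big k hk
    exact ⟨K, B, T₀, by linarith, fun T Δ h1 h2 h3 m h4 h5 => h T Δ h1 h2 h3 m h4 h5⟩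
  · obtain ⟨K, B, T₀, -, hB, -, h⟩ := exact k hk
    exact ⟨K, B, T₀, by linarith, fun N u T Δ h1 h2 h3 h4 h5 h6 => h N u T Δ h1 h2 h3 h4 h5 h6⟩
  · obtain ⟨δ, K, T₀, hδ, -, h⟩ := side_pow hk hk3 hkN hNk
    refine ⟨δ, K, T₀, hδ, fun u T hu hT => ?_⟩
    have h1 := h u T hu hT
    rw [MS_eq, M_eq]
    have e : (if N = k then 2 / Real.pi * (((‖u‖ : ℂ) / u) ^ k).re * T else 0) =
        1 / 2 * (bb N u * ((if N = k then 1 else 0) * T)) := by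
      unfold bb
      split_ifs with hNe
      · rw [hNe]; ring
      · ring
    rw [e]
    exact h1
  · obtain ⟨K, T₀, -, h⟩ := side_three
    refine ⟨K, T₀, fun u T hu hT => ?_⟩
    have h1 := h u T hu hT
    rw [MS_eq, M_eq]
    have e : 1 / Real.pi * (u.re / ‖u‖) * (T * Real.log T ^ 2) = 1 / 2 * (bb 1 u * (T * Real.log T ^ 2 / 2)) := by
      unfold bb
      rw [pow_one, re_eq]
      ring
    rw [e]
    exact h1
  · obtain ⟨K, T₀, -, h⟩ := halves hk hk3 hN hNk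
    exact ⟨K, T₀, fun u T hu hT => (h u T hu hT).2⟩
  · filter_upwards [side_upper hk hN hNk hkN hu h0 h1, side_lower hk hN hNk hkN hu h0 h1] with T h2 h3
    exact ⟨h2, h3⟩
  · exact side_equiv hk hN hNk hkN hu a

end Pool.Agent.Results.MP_91b7ff_nt.SidesOfLines
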