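import Pool.Agent.N748.MO.Main

set_option autoImplicit false

/-!
# Moments of all orders of zeta with two factors on the critical line
-/

namespace Pool.Agent.Results.MP_91b7ff_nt.TwoFactorsOnTheLine

open MeasureTheory Filter Topology

/-- the arithmetic factor of the moment conjecture,
`a(k) = ∏_p (1 - 1/p)^{k²} Σ_m (k (k+1) ... (k+m-1) / m!)² p^{-m}` -/
noncomputable def ak (k : ℝ) : ℝ :=
  ∏' p : Nat.Primes, ((1 - 1 / (p : ℝ)) ^ (k ^ 2) *
    ∑' m : ℕ, (∏ i ∈ Finset.range m, (k + i) / ((i : ℝ) + 1)) ^ 2 * (1 / (p : ℝ)) ^ m)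

/-- the modulus of zeta on the critical line at height `t` -/
noncomputable def z0 (t : ℝ) : ℝ := ‖riemannZeta (1 / 2 + t * Complex.I)‖

/-- the modulus of zeta at distance `d` from the critical line and height `t` -/
noncomputable def z (d t : ℝ) : ℝ := ‖riemannZeta (1 / 2 + d + t * Complex.I)‖

/-- the mean over `0 ≤ t ≤ T` of `|ζ(1/2 + it)|² |ζ(1/2 + d + it)|^{2k}`, taken over the points where
`|ζ(1/2 + d + it)| ≤ c` -/
noncomputable def M (k c d T : ℝ) : ℝ :=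
  (1 / T) * ∫ t in {t : ℝ | t ∈ Set.Icc 0 T ∧ z d t ≤ c}, z0 t ^ 2 * z d t ^ (2 * k)

/-- the logarithm of `1/(2d)` -/
noncomputable def L (d : ℝ) : ℝ := Real.log (1 / (2 * d))

/-- the normal distribution function -/
noncomputable def Phi (x : ℝ) : ℝ := (ProbabilityTheory.gaussianReal 0 1 (Set.Iic x)).toReal

lemma adm {c : ℝ} {d : ℝ → ℝ} (hc : 0 < c) (hd0 : ∀ᶠ T : ℝ in atTop, 0 < d T)
    (hdc : ∀ᶠ T : ℝ in atTop, d T ≤ Real.log T ^ (-c))
    (hdL : Tendsto (fun T : ℝ => d T * Real.log T / Real.log (1 / d T) ^ 2) atTop atTop) :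
    Pool.Agent.N748.MO.Adc c d := by
  refine ⟨⟨hd0, ?_, hdL⟩, hc, hdc⟩
  have h1 : Tendsto (fun T : ℝ => Real.log T ^ (-c)) atTop (𝓝 0) :=
    (tendsto_rpow_neg_atTop hc).comp Real.tendsto_log_atTop
  exact squeeze_zero' (hd0.mono fun T h => h.le) hdc h1

theorem result (c : ℝ) (hc : 0 < c) (d : ℝ → ℝ) (hd0 : ∀ᶠ T : ℝ in atTop, 0 < d T)
    (hdc : ∀ᶠ T : ℝ in atTop, d T ≤ Real.log T ^ (-c))
    (hdL : Tendsto (fun T : ℝ => d T * Real.log T / Real.log (1 / d T) ^ 2) atTop atTop) (k : ℝ) (hk : 0 ≤ k) :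
    (∀ V : ℝ, k + 1 < V → Tendsto (fun T : ℝ => M k ((2 * d T) ^ (-V)) (d T) T /
      (ak (k + 1) * Real.log T * (d T) ^ (-(2 * k)) * (2 * d T) ^ (-(k ^ 2)))) atTop (𝓝 1)) ∧
    (∀ x : ℝ, Tendsto (fun T : ℝ =>
      M k ((2 * d T) ^ (-(k + 1)) * Real.exp (x * Real.sqrt (L (d T) / 2))) (d T) T /
      (ak (k + 1) * Real.log T * (d T) ^ (-(2 * k)) * (2 * d T) ^ (-(k ^ 2)))) atTop (𝓝 (Phi x))) ∧
    (∀ V : ℝ, V < k + 1 → Tendsto (fun T : ℝ => M k ((2 * d T) ^ (-V)) (d T) T /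
      (4 ^ (V - 1) * ak V * Real.log T * (2 * d T) ^ (V ^ 2 + 1 - 2 * (k + 1) * V) /
        (2 * (k + 1 - V) * Real.sqrt (Real.pi * L (d T))))) atTop (𝓝 1)) := by
  have hA := adm hc hd0 hdc hdL
  obtain ⟨f1, f2, f3, -⟩ := Pool.Agent.N748.MO.allF
  have hak : ∀ V : ℝ, ak V = Pool.Agent.N748.MG.akR V := fun V => rfl
  have hpos : ∀ V : ℝ, 0 < ak V := fun V => (Pool.Agent.N748.MG.aC_akR V).1
  have hre : ∀ V : ℝ, (Pool.Agent.N748.MG.aC (V : ℂ)).re = ak V := fun V => by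
    rw [Pool.Agent.N748.MG.aC_re, hak]
  have hre1 : (Pool.Agent.N748.MG.aC ((k : ℂ) + 1)).re = ak (k + 1) := by
    rw [← hre (k + 1)]
    push_cast
    rfl
  have hsmall : ∀ᶠ T : ℝ in atTop, d T < 1 / 2 := hA.t0.eventually (gt_mem_nhds (by norm_num))
  have h4 : (0:ℝ) < 4 ^ k := Real.rpow_pos_of_pos (by norm_num) _
  have hmain : ∀ (N : ℝ → ℝ) (ℓ : ℝ), Tendsto (fun T : ℝ => (2 * d T) ^ ((k + 1) ^ 2 - 1) * (N T / Real.log T)) atTop
      (𝓝 (4 ^ k * ak (k + 1) * ℓ)) → Tendsto (fun T : ℝ => N T /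
      (ak (k + 1) * Real.log T * (d T) ^ (-(2 * k)) * (2 * d T) ^ (-(k ^ 2)))) atTop (𝓝 ℓ) := by
    intro N ℓ h
    have h2 := h.div_const (4 ^ k * ak (k + 1))
    rw [mul_div_cancel_left₀ _ (mul_pos h4 (hpos _)).ne'] at h2
    refine h2.congr' ?_
    filter_upwards [hd0, eventually_gt_atTop 1] with T hT hT1
    have h3 : (0:ℝ) < 2 * d T := by linarith
    have hlog : 0 < Real.log T := Real.log_pos hT1
    have e1 : (2 * d T) ^ (-(k ^ 2)) = ((2 * d T) ^ (k ^ 2))⁻¹ := Real.rpow_neg h3.le _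
    have e2 : (d T) ^ (-(2 * k)) = 4 ^ k * ((2 * d T) ^ (2 * k))⁻¹ := by
      rw [← Real.rpow_neg h3.le, Real.mul_rpow (by norm_num) hT.le, ← mul_assoc]
      have e3 : (4:ℝ) ^ k * 2 ^ (-(2 * k)) = 1 := by
        have e4 : (4:ℝ) ^ k = 2 ^ (2 * k) := by
          rw [Real.rpow_mul (by norm_num)]
          norm_num
        rw [e4, ← Real.rpow_add (by norm_num)]
        simp
      rw [e3, one_mul]
    have e5 : (2 * d T) ^ ((k + 1) ^ 2 - 1) = (2 * d T) ^ (k ^ 2) * (2 * d T) ^ (2 * k) := by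
      rw [← Real.rpow_add h3]
      congr 1; ring
    have h5 : (0:ℝ) < (2 * d T) ^ (k ^ 2) := Real.rpow_pos_of_pos h3 _
    have h6 : (0:ℝ) < (2 * d T) ^ (2 * k) := Real.rpow_pos_of_pos h3 _
    have h7 := hpos (k + 1)
    rw [e1, e2, e5]
    field_simp
  refine ⟨fun V hV => ?_, fun x => ?_, fun V hV => ?_⟩
  · have h := f1 c d hA k V hk hV
    rw [hre1] at h
    refine hmain (fun T => M k ((2 * d T) ^ (-V)) (d T) T) 1 ?_
    rw [mul_one]
    exact h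
  · have h := f2 c d hA k x hk
    rw [hre1] at h
    exact hmain (fun T => M k ((2 * d T) ^ (-(k + 1)) * Real.exp (x * Real.sqrt (L (d T) / 2))) (d T) T) (Phi x) h
  · have h := f3 c d hA k V hk hV
    rw [hre] at h
    have hkV : (0:ℝ) < 2 * (k + 1 - V) := by linarith
    have h4V : (0:ℝ) < 4 ^ (V - 1) := Real.rpow_pos_of_pos (by norm_num) _
    have h2 := h.div_const (4 ^ (V - 1) * ak V / (2 * (k + 1 - V)))
    rw [div_self (div_pos (mul_pos h4V (hpos V)) hkV).ne'] at h2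
    refine h2.congr' ?_
    filter_upwards [hd0, hsmall, eventually_gt_atTop 1] with T hT hT2 hT1
    have h3 : (0:ℝ) < 2 * d T := by linarith
    have hlog : 0 < Real.log T := Real.log_pos hT1
    have e4 : (2 * d T) ^ (V ^ 2 + 1 - 2 * (k + 1) * V) = ((2 * d T) ^ (2 * (k + 1) * V - V ^ 2 - 1))⁻¹ := by
      rw [← Real.rpow_neg h3.le]; congr 1; ring
    have h5 : (0:ℝ) < (2 * d T) ^ (2 * (k + 1) * V - V ^ 2 - 1) := Real.rpow_pos_of_pos h3 _
    have h6 := hpos V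
    have h7 : 0 < L (d T) := Real.log_pos (by rw [lt_div_iff₀ h3]; linarith)
    have h8 : 0 < Real.sqrt (Real.pi * L (d T)) := Real.sqrt_pos.2 (by positivity)
    change Real.sqrt (Real.pi * L (d T)) * (2 * d T) ^ (2 * (k + 1) * V - V ^ 2 - 1) *
      (M k ((2 * d T) ^ (-V)) (d T) T / Real.log T) / (4 ^ (V - 1) * ak V / (2 * (k + 1 - V))) = _
    rw [e4]
    field_simp

end Pool.Agent.Results.MP_91b7ff_nt.TwoFactorsOnTheLine
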