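import Pool.Agent.N748.HM.Fin

set_option autoImplicit false

/-!
# Moments of all orders of zeta in windows near the critical line
-/

namespace Pool.Agent.Results.MP_91b7ff_nt.WindowsAllOrders

open MeasureTheory Filter Topology

/-- the arithmetic factor of the moment conjecture,
`a(k) = ∏_p (1 - 1/p)^{k²} Σ_m (k (k+1) ... (k+m-1) / m!)² p^{-m}` -/
noncomputable def ak (k : ℝ) : ℝ :=
  ∏' p : Nat.Primes, ((1 - 1 / (p : ℝ)) ^ (k ^ 2) *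
    ∑' m : ℕ, (∏ i ∈ Finset.range m, (k + i) / ((i : ℝ) + 1)) ^ 2 * (1 / (p : ℝ)) ^ m)

/-- the modulus of zeta at distance `d` from the critical line and height `t` -/
noncomputable def z (d t : ℝ) : ℝ := ‖riemannZeta (1 / 2 + d + t * Complex.I)‖

/-- `|ζ(1/2+d+it)|^k` divided by its asymptotic mean value `a(k/2) (2d)^(-k²/4)` -/
noncomputable def Z (k d t : ℝ) : ℝ := (2 * d) ^ (k ^ 2 / 4) / ak (k / 2) * z d t ^ k

/-- the same without the very large values of zeta -/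
noncomputable def ZV (k V d : ℝ) : ℝ → ℝ := Set.indicator {t : ℝ | z d t ≤ d ^ (-V)} (Z k d)

/-- the mean of a function over the window `[t, t+H]` -/
noncomputable def W (f : ℝ → ℝ) (H t : ℝ) : ℝ := (1 / H) * ∫ u in t..(t + H), f u

/-- the mean deviation of the window means from `1`, for `0 ≤ t ≤ T` -/
noncomputable def dev (f : ℝ → ℝ) (H T : ℝ) : ℝ := (1 / T) * ∫ t in (0:ℝ)..T, |W f H t - 1|

/-- the proportion of the points of a set in `[0, T]` (in the sense of the outer measure) -/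
noncomputable def prop (T : ℝ) (S : Set ℝ) : ℝ := (1 / T) * (volume {t : ℝ | 0 ≤ t ∧ t ≤ T ∧ t ∈ S}).toReal

open Pool.Agent.N748.GC in
lemma Z_eq (k d : ℝ) : Z k d = Zn (k / 2) d := by
  funext u
  unfold Z Zn ak aa lc z
  rw [show (k / 2) ^ 2 = k ^ 2 / 4 by ring, show 2 * (k / 2) = k by ring]

open Pool.Agent.N748.GC in
lemma ZV_eq (k V d : ℝ) : ZV k V d = Pool.Agent.N748.HM.Zt (k / 2) V d := by
  unfold ZV Pool.Agent.N748.HM.Zt
  rw [Z_eq]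
  rfl

theorem result (d : ℝ → ℝ) (hd0 : ∀ᶠ T : ℝ in atTop, 0 < d T) (hd : Tendsto d atTop (𝓝 0))
    (hdL : Tendsto (fun T : ℝ => d T * Real.log T / Real.log (1 / d T) ^ 2) atTop atTop) :
    (∀ k : ℝ, 0 < k → ∀ V : ℝ, k / 2 < V → ∀ H : ℝ → ℝ,
      (∀ θ : ℝ, 0 < θ → k ^ 2 / 4 - 1 < θ → (∀ᶠ T : ℝ in atTop, d T ^ (-θ) ≤ H T ∧ H T ≤ T) →
        Tendsto (fun T : ℝ => dev (ZV k V (d T)) (H T) T) atTop (𝓝 0)) ∧
      (∀ θ : ℝ, θ < k ^ 2 / 4 - 1 → (∀ᶠ T : ℝ in atTop, 0 < H T ∧ H T ≤ d T ^ (-θ)) →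
        Tendsto (fun T : ℝ => dev (ZV k V (d T)) (H T) T) atTop (𝓝 2))) ∧
    (∀ k : ℝ, 0 < k → ∀ H : ℝ → ℝ,
      (∀ θ D : ℝ, 0 < θ → k ^ 2 / 4 - 1 < θ → (∀ᶠ T : ℝ in atTop, d T ^ (-θ) ≤ H T ∧ H T ≤ d T ^ (-D)) →
        ∀ η : ℝ, 0 < η →
          Tendsto (fun T : ℝ => prop T {t | η ≤ |W (Z k (d T)) (H T) t - 1|}) atTop (𝓝 0)) ∧
      (∀ θ : ℝ, θ < k ^ 2 / 4 - 1 → (∀ᶠ T : ℝ in atTop, 0 < H T ∧ H T ≤ d T ^ (-θ)) →
        ∀ η : ℝ, 0 < η → Tendsto (fun T : ℝ => prop T {t | η ≤ W (Z k (d T)) (H T) t}) atTop (𝓝 0))) := by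
  have hA : Pool.Agent.N748.HM.Ad d := ⟨hd0, hd, hdL⟩
  have hk2 : ∀ k : ℝ, (k / 2) ^ 2 - 1 = k ^ 2 / 4 - 1 := fun k => by ring
  refine ⟨fun k hk V hV H => ⟨fun θ hθ hθ1 hH => ?_, fun θ hθ1 hH => ?_⟩,
    fun k hk H => ⟨fun θ D hθ hθ1 hH η hη => ?_, fun θ hθ1 hH η hη => ?_⟩⟩
  · simp only [dev, W, ZV_eq]
    exact Pool.Agent.N748.HM.win_lim Pool.Agent.N748.HM.wtrF (by linarith) hV hθ (by rw [hk2]; exact hθ1) hA hH
  · simp only [dev, W, ZV_eq]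
    exact Pool.Agent.N748.HM.win_lim0 Pool.Agent.N748.HM.wtr0F (by linarith) hV (by rw [hk2]; exact hθ1) hA hH
  · simp only [prop, W, Z_eq]
    exact Pool.Agent.N748.HM.win_meas Pool.Agent.N748.HM.core3F (by linarith) hθ (by rw [hk2]; exact hθ1) hA hH hη
  · simp only [prop, W, Z_eq]
    exact Pool.Agent.N748.HM.win_meas0 Pool.Agent.N748.HM.deg3F (by linarith) (by rw [hk2]; exact hθ1) hA hH hη

end Pool.Agent.Results.MP_91b7ff_nt.WindowsAllOrders
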